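import Mathlib
import Pool.Agent.H12.FracA

set_option autoImplicit false

namespace Pool.Agent.Results.MP_33c96f_co.NoTree

open Matrix

variable {V : Type} [Fintype V] [DecidableEq V]

/-- the continuous-time quantum walk `exp (i t A)` -/
noncomputable def walkOp (G : SimpleGraph V) [DecidableRel G.Adj] (t : ℝ) : Matrix V V ℂ :=
  NormedSpace.exp ((Complex.I * t) • G.adjMatrix ℂ)

/-- proper fractional revival between `a` and `b` -/
def ProperFR (G : SimpleGraph V) [DecidableRel G.Adj] (a b : V) : Prop :=
  ∃ τ : ℝ, 0 < τ ∧ ∃ α β : ℂ, α ≠ 0 ∧ β ≠ 0 ∧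
    walkOp G τ *ᵥ Pi.single a 1 = α • Pi.single a 1 + β • Pi.single b 1

/-- the vertex-deleted subgraphs have the same characteristic polynomial -/
def Cospectral (G : SimpleGraph V) [DecidableRel G.Adj] (a b : V) : Prop :=
  ((G.induce {v | v ≠ a}).adjMatrix ℝ).charpoly = ((G.induce {v | v ≠ b}).adjMatrix ℝ).charpoly

open Pool.Agent.H12.Frac Finset

theorem int_sq (s y : ℤ) (h : s ^ 2 + 4 = y * y) : s = 0 := by
  have h1 : |s| < |y| := by
    by_contra hc
    have := abs_nonneg y
    nlinarith [sq_abs s, sq_abs y]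
  have h2 : |s| ≤ 1 := by nlinarith [sq_abs s, sq_abs y, abs_nonneg s]
  have h3 : |y| ≤ 2 := by nlinarith [sq_abs s, sq_abs y, abs_nonneg s]
  have h4 := abs_le.1 h2
  have h5 := abs_le.1 h3
  obtain ⟨a, b⟩ := h4
  obtain ⟨c, d⟩ := h5
  interval_cases s <;> interval_cases y <;> simp_all

theorem result (G : SimpleGraph V) [DecidableRel G.Adj] (hT : G.IsTree) (a b : V) (hab : a ≠ b)
    (h : ProperFR G a b) : Cospectral G a b := by
  obtain ⟨τ, hτ, α, β, hα, hβ, h⟩ := h
  obtain ⟨W, θ, h1, h2, hA⟩ := spec (G.adjMatrix ℝ) (by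
    simp [IsHermitian, conjTranspose_eq_transpose_of_trivial])
  have hC : G.adjMatrix ℂ = (W * diagonal θ * Wᵀ).map fun r : ℝ => (r : ℂ) := by
    rw [← hA]
    ext i j
    simp only [SimpleGraph.adjMatrix_apply, map_apply]
    split_ifs <;> simp
  have on1 : ∀ x y, ∑ l, W x l * W y l = if x = y then 1 else 0 := fun x y => by
    simpa [mul_apply, Matrix.one_apply] using congrFun (congrFun h1 x) y
  obtain ⟨z, hz⟩ : ∃ z : V → ℂ, ∀ l, z l = Complex.exp (Complex.I * τ * θ l) := ⟨_, fun _ => rfl⟩
  have U : ∀ x y, walkOp G τ x y = ∑ l, (W x l : ℂ) * z l * W y l := fun x y => by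
    rw [walkOp, hC, exp_entry W θ h1]
    simp only [hz]
  have col : ∀ x, ∑ l, (W x l : ℂ) * z l * W a l =
      α * (if x = a then 1 else 0) + β * if x = b then 1 else 0 := fun x => by
    have := congrFun h x
    rw [← U]
    simpa [Pi.single_apply] using this
  have ha : ∑ l, (W a l : ℂ) * z l * W a l = α := by simpa [hab] using col a
  have hb : ∑ l, (W b l : ℂ) * z l * W a l = β := by simpa [hab.symm] using col b
  have st : ∀ l, z l * W a l = α * W a l + β * W b l := by
    have key : ∀ x, ∑ l, (W x l : ℂ) * (z l * W a l - α * W a l - β * W b l) = 0 := fun x => by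
      have c1 := congrArg (fun r : ℝ => (r : ℂ)) (on1 x a)
      have c2 := congrArg (fun r : ℝ => (r : ℂ)) (on1 x b)
      simp only [Complex.ofReal_sum, Complex.ofReal_mul, apply_ite Complex.ofReal,
        Complex.ofReal_one, Complex.ofReal_zero] at c1 c2
      have := col x
      rw [← c1, ← c2, Finset.mul_sum, Finset.mul_sum, ← sum_add_distrib, ← sub_eq_zero,
        ← sum_sub_distrib] at this
      rw [← this]
      exact sum_congr rfl fun l _ => by ring
    intro l
    have r := orth_zero W h2 (fun l => (z l * W a l - α * W a l - β * W b l).re) (fun x => by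
      have := congrArg Complex.re (key x)
      simpa only [Complex.re_sum, Complex.re_ofReal_mul, Complex.zero_re] using this) l
    have i := orth_zero W h2 (fun l => (z l * W a l - α * W a l - β * W b l).im) (fun x => by
      have := congrArg Complex.im (key x)
      simpa only [Complex.im_sum, Complex.im_ofReal_mul, Complex.zero_im] using this) l
    have : z l * W a l - α * W a l - β * W b l = 0 := Complex.ext r i
    linear_combination this
  obtain ⟨d, d1, d2⟩ : ∃ d : V → ℂ, (∀ x, d x = 1 ∨ d x = -1) ∧
      ∀ x y, G.Adj x y → d x * d y = -1 := by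
    refine ⟨fun x => if hT.coloringTwo x = 0 then 1 else -1, fun x => by
      by_cases e : hT.coloringTwo x = 0 <;> simp [e], fun x y e => ?_⟩
    have k : ∀ p r : Fin 2, p ≠ r →
        (if p = 0 then (1 : ℂ) else -1) * (if r = 0 then 1 else -1) = -1 := by
      intro p r h
      fin_cases p <;> fin_cases r <;> simp at h ⊢
    exact k _ _ (hT.coloringTwo.valid e)
  have dd : diagonal d * diagonal d = 1 := by
    rw [diagonal_mul_diagonal, ← diagonal_one]
    congr 1
    funext x
    rcases d1 x with e | e <;> simp [e]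
  have cj : ∀ x y, (starRingEnd ℂ) (walkOp G τ x y) = d x * walkOp G τ x y * d y := by
    intro x y
    have u : IsUnit (diagonal d) := (isUnit_iff_isUnit_det _).2 (isUnit_det_of_right_inverse dd)
    have e := Matrix.exp_conj (diagonal d) ((Complex.I * τ) • G.adjMatrix ℂ) u
    rw [inv_eq_right_inv dd] at e
    have e2 : diagonal d * ((Complex.I * τ) • G.adjMatrix ℂ) * diagonal d =
        (-(Complex.I * τ)) • G.adjMatrix ℂ := by
      ext i j
      simp only [mul_diagonal, diagonal_mul, Matrix.smul_apply, SimpleGraph.adjMatrix_apply,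
        smul_eq_mul]
      split_ifs with hij
      · linear_combination (Complex.I * τ) * d2 i j hij
      · simp
    rw [e2] at e
    have e3 := congrFun (congrFun e x) y
    rw [mul_diagonal, diagonal_mul] at e3
    rw [walkOp] at *
    rw [← e3, hC, exp_entry W θ h1, exp_entry W θ h1, map_sum]
    refine sum_congr rfl fun l _ => ?_
    simp [← Complex.exp_conj]
  have zr : ∀ l, (z l).re = Real.cos (τ * θ l) ∧ (z l).im = Real.sin (τ * θ l) := fun l => by
    rw [hz, show Complex.I * τ * θ l = ((τ * θ l : ℝ) : ℂ) * Complex.I by push_cast; ring]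
    exact ⟨Complex.exp_ofReal_mul_I_re _, Complex.exp_ofReal_mul_I_im _⟩
  have αi : α.im = 0 := by
    have := cj a a
    rw [U, ha] at this
    rcases d1 a with e | e <;> rw [e] at this <;>
      exact Complex.conj_eq_iff_im.1 (by linear_combination this)
  have cβ := cj b a
  rw [U, hb] at cβ
  have sr : ∀ l, Real.cos (τ * θ l) * W a l = α.re * W a l + β.re * W b l := fun l => by
    simpa [(zr l).1] using congrArg Complex.re (st l)
  have si : ∀ l, Real.sin (τ * θ l) * W a l = β.im * W b l := fun l => by
    simpa [(zr l).2, αi] using congrArg Complex.im (st l)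
  have aa : ∑ l, W a l ^ 2 = 1 := by simpa [sq] using on1 a a
  have bb : ∑ l, W b l ^ 2 = 1 := by simpa [sq] using on1 b b
  have ab : ∑ l, W a l * W b l = 0 := by simpa [hab] using on1 a b
  have par : β.re = 0 ∨ β.im = 0 := by
    have r := congrArg Complex.re cβ
    have i := congrArg Complex.im cβ
    rcases d1 a with e | e <;> rcases d1 b with f | f <;> simp [e, f] at r i <;>
      first | (left; linarith) | (right; linarith)
  rcases par with p | p
  · have β0 : β.im ≠ 0 := fun e => hβ (Complex.ext p e)
    have e1 : ∀ l, (1 - α.re ^ 2) * W a l ^ 2 = β.im ^ 2 * W b l ^ 2 := fun l => by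
      have s1 := sr l
      have s2 := si l
      have s3 := Real.sin_sq_add_cos_sq (τ * θ l)
      rw [p] at s1
      linear_combination (Real.cos (τ * θ l) * W a l + α.re * W a l) * s1 +
        (Real.sin (τ * θ l) * W a l + β.im * W b l) * s2 - W a l ^ 2 * s3
    have e2 := sum_congr (s₁ := univ) rfl fun l _ => e1 l
    rw [← Finset.mul_sum, ← Finset.mul_sum, aa, bb] at e2
    have := cosp W θ h1 h2 a b fun l => by
      have := e1 l
      rw [mul_one, mul_one] at e2
      rw [e2] at this
      exact mul_left_cancel₀ (pow_ne_zero 2 β0) this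
    rw [← hA] at this
    exact this
  · exfalso
    have β0 : β.re ≠ 0 := fun e => hβ (Complex.ext e p)
    have α0 : α.re ≠ 0 := fun e => hα (Complex.ext e αi)
    have ek : ∀ l, ∃ k : ℤ, W a l ≠ 0 → (k : ℝ) * Real.pi = τ * θ l := fun l => by
      by_cases e : W a l = 0
      · exact ⟨0, fun f => (f e).elim⟩
      · have := si l
        rw [p, zero_mul] at this
        obtain ⟨k, hk⟩ := Real.sin_eq_zero_iff.1 ((mul_eq_zero.1 this).resolve_right e)
        exact ⟨k, fun _ => hk⟩
    choose k hk using ek
    have cz : ∀ l, W a l ≠ 0 → Real.cos (τ * θ l) = (-1) ^ ((k l).natAbs ^ 2) := fun l e => by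
      rw [← hk l e, Real.cos_int_mul_pi]
      rcases Int.even_or_odd (k l) with o | o
      · rw [o.neg_one_zpow, Even.neg_one_pow]
        exact (Nat.even_pow.2 ⟨Int.natAbs_even.2 o, by norm_num⟩)
      · rw [o.neg_one_zpow, Odd.neg_one_pow]
        exact (Int.natAbs_odd.2 o).pow
    have c2 : ∀ l, Real.cos (τ * θ l) ^ 2 * W a l = W a l := fun l => by
      have s2 := si l
      have s3 := Real.sin_sq_add_cos_sq (τ * θ l)
      rw [p] at s2
      linear_combination W a l * s3 - Real.sin (τ * θ l) * s2
    have pw : ∀ n x y, ∃ m : ℕ, ∑ l, W x l * θ l ^ n * W y l = m ∧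
        m = Fintype.card {w : G.Walk x y | w.length = n} := fun n x y => by
      refine ⟨_, ?_, rfl⟩
      rw [← pow_entry W θ h1 h2, ← hA, SimpleGraph.adjMatrix_pow_apply_eq_card_walk]
    have sb : ∑ l, W b l * Real.cos (τ * θ l) * W a l = β.re := by
      simpa [Complex.re_sum, fun l => (zr l).1] using congrArg Complex.re hb
    have sa : ∑ l, W a l * Real.cos (τ * θ l) * W a l = α.re := by
      simpa [Complex.re_sum, fun l => (zr l).1] using congrArg Complex.re ha
    obtain ⟨r, hr⟩ := rat_core W h2 (fun l => θ l ^ 2) a (fun n x => by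
        obtain ⟨m, hm, -⟩ := pw (2 * n) x a
        exact ⟨m, by simpa [pow_mul] using hm⟩) ((Real.pi / τ) ^ 2)
      (by have := Real.pi_pos; positivity) (fun l => (k l).natAbs ^ 2) (fun l e => by
        have := hk l e
        have e2 : θ l = k l * (Real.pi / τ) := by field_simp; linarith
        rw [e2]
        push_cast
        rw [Nat.cast_natAbs, Int.cast_abs, sq_abs]
        ring) (by
        by_contra hc
        push Not at hc
        apply β0
        rw [← sb, ← ab]
        refine sum_congr rfl fun l _ => ?_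
        by_cases e : W a l = 0
        · simp [e]
        · rw [cz l e, hc l e]
          ring) (fun l => Real.cos (τ * θ l)) cz b
    rw [sb] at hr
    have n1 : β.re ^ 2 = 1 - α.re ^ 2 := by
      have e : ∀ l, β.re ^ 2 * W b l ^ 2 = (1 + α.re ^ 2) * W a l ^ 2 -
          2 * α.re * (W a l * Real.cos (τ * θ l) * W a l) := fun l => by
        linear_combination (-(Real.cos (τ * θ l) * W a l - α.re * W a l + β.re * W b l)) * sr l +
          W a l * c2 l
      have e2 := sum_congr (s₁ := univ) rfl fun l _ => e l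
      rw [sum_sub_distrib, ← Finset.mul_sum, ← Finset.mul_sum, ← Finset.mul_sum, aa, bb, sa] at e2
      linarith
    have fc : ∀ l, β.re * (W a l * W a l - W b l * W b l) = 2 * α.re * (W a l * W b l) := fun l => by
      apply mul_left_cancel₀ β0
      linear_combination (Real.cos (τ * θ l) * W a l + α.re * W a l + β.re * W b l) * sr l -
        W a l * c2 l + W a l ^ 2 * n1
    obtain ⟨m1, a1, -⟩ := pw (G.dist a b) a a
    obtain ⟨m2, a2, -⟩ := pw (G.dist a b) b b
    obtain ⟨m3, a3, a4⟩ := pw (G.dist a b) a b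
    have m31 : m3 = 1 := by
      rw [a4, Fintype.card_eq_one_iff]
      obtain ⟨w, w1, w2⟩ := hT.connected.exists_path_of_dist a b
      refine ⟨⟨w, w2⟩, fun ⟨y, hy⟩ => Subtype.ext ?_⟩
      exact (hT.existsUnique_path a b).unique (y.isPath_of_length_eq_dist hy) w1
    have fs : β.re * ((m1 : ℝ) - m2) = 2 * α.re := by
      rw [← a1, ← a2, ← sum_sub_distrib, Finset.mul_sum, ← mul_one (2 * α.re),
        show (1 : ℝ) = (m3 : ℝ) by simp [m31], ← a3, Finset.mul_sum]
      exact sum_congr rfl fun l _ => by linear_combination θ l ^ G.dist a b * fc l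
    have r0 : (r : ℝ) ≠ 0 := hr ▸ β0
    have sq : IsSquare ((((m1 : ℤ) - m2) ^ 2 + 4 : ℤ) : ℚ) := by
      refine ⟨2 / r, ?_⟩
      have : ((((m1 : ℤ) - m2) ^ 2 + 4 : ℤ) : ℝ) = 2 / r * (2 / r) := by
        field_simp
        push_cast
        rw [← hr]
        linear_combination (β.re * ((m1 : ℝ) - m2) + 2 * α.re) * fs + 4 * n1
      exact_mod_cast this
    obtain ⟨y, hy⟩ := Rat.isSquare_intCast_iff.1 sq
    have s0 := int_sq _ _ hy
    have : (m1 : ℝ) - m2 = 0 := by exact_mod_cast s0
    rw [this, mul_zero] at fs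
    exact α0 (by linarith)

end Pool.Agent.Results.MP_33c96f_co.NoTree
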